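import Mathlib
import Pool.Agent.Helper18.Haussler

/-!
# Haussler's packing lemma with the sharp Sauer-Shelah bound

`Helper18.packing` bounds the size of a `δ`-separated family of VC-dimension `d` by
`2 (m + 1) ^ d`, `m ≈ 4 n d / δ`. Here the factor `d ^ d` is removed.
-/

set_option autoImplicit false

namespace Pool.Agent.Helper98.VCU

open Finset Helper18

variable {α : Type*} [Fintype α] [DecidableEq α]

/-- `∑_{k ≤ d} C(m,k) ≤ (3 m / d) ^ d`. -/
lemma sum_choose_le_sharp (m d : ℕ) (hd : 1 ≤ d) (hm : d ≤ m) :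
    ((∑ k ∈ Iic d, m.choose k : ℕ) : ℝ) ≤ (3 * m / d) ^ d := by
  have hd0 : (0 : ℝ) < d := by exact_mod_cast hd
  have hm0 : (0 : ℝ) < m := by exact_mod_cast (by omega : 0 < m)
  set x : ℝ := d / m with hx
  have hx0 : 0 < x := by positivity
  have hx1 : x ≤ 1 := by
    rw [hx, div_le_one hm0]
    exact_mod_cast hm
  have h1 : x ^ d * ((∑ k ∈ Iic d, m.choose k : ℕ) : ℝ) ≤ (1 + x) ^ m := by
    have h2 : (1 + x) ^ m = ∑ k ∈ range (m + 1), x ^ k * (m.choose k : ℝ) := by
      rw [add_comm, add_pow]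
      refine sum_congr rfl fun k _ => ?_
      simp
    rw [h2]
    push_cast
    rw [mul_sum]
    calc ∑ k ∈ Iic d, x ^ d * (m.choose k : ℝ) ≤ ∑ k ∈ Iic d, x ^ k * (m.choose k : ℝ) := by
          refine sum_le_sum fun k hk => ?_
          have hk' : k ≤ d := mem_Iic.1 hk
          exact mul_le_mul_of_nonneg_right (pow_le_pow_of_le_one hx0.le hx1 hk')
            (Nat.cast_nonneg _)
      _ ≤ ∑ k ∈ range (m + 1), x ^ k * (m.choose k : ℝ) := by
          refine sum_le_sum_of_subset_of_nonneg ?_ ?_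
          · intro k hk
            have hk' : k ≤ d := mem_Iic.1 hk
            exact mem_range.2 (by omega)
          · intro k _ _
            positivity
  have h2 : (1 + x) ^ m ≤ (3 : ℝ) ^ d := by
    calc (1 + x) ^ m ≤ (Real.exp x) ^ m := by
          apply pow_le_pow_left₀ (by linarith)
          have := Real.add_one_le_exp x
          linarith
      _ = Real.exp d := by
          rw [← Real.exp_nat_mul, hx]
          congr 1
          field_simp
      _ = (Real.exp 1) ^ d := by rw [← Real.exp_nat_mul, mul_one]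
      _ ≤ 3 ^ d := by
          apply pow_le_pow_left₀ (Real.exp_pos 1).le
          exact Real.exp_one_lt_three.le
  have h3 : (3 * m / d : ℝ) ^ d = 3 ^ d / x ^ d := by
    rw [← div_pow, hx]
    congr 1
    field_simp
  rw [h3, le_div_iff₀ (by positivity), mul_comm]
  exact h1.trans h2

/-- **Haussler's packing lemma**, binomial form. -/
theorem packing_aux' [Nonempty α] (F : Finset (Finset α)) (d δ : ℕ) (hd : F.vcDim ≤ d)
    (hδ : ∀ A ∈ F, ∀ B ∈ F, A ≠ B → δ ≤ #(symmDiff A B)) (m : ℕ) :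
    m * (δ * #F) ≤ 2 * (Fintype.card α * (d * #F)) +
      m * (δ * ∑ k ∈ Iic d, m.choose k) := by
  classical
  set n := Fintype.card α with hn
  set M := Fintype.card (Fin m → α) with hM
  set S := ∑ k ∈ Iic d, m.choose k with hS
  have hMpos : 0 < M := Fintype.card_pos
  have h1 : ∀ i : Fin m, M * (δ * #F) ≤
      2 * (n * ∑ x, wEdge F x i) + M * (δ * S) := by
    intro i
    have e1 : M * (δ * #F) = ∑ _x : Fin m → α, δ * #F := by
      rw [sum_const, card_univ, smul_eq_mul]
    have e2 : M * (δ * S) = ∑ _x : Fin m → α, δ * S := by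
      rw [sum_const, card_univ, smul_eq_mul]
    rw [e1, e2, ← sum_update (fun x => wEdge F x i) i, mul_sum, ← sum_add_distrib]
    refine sum_le_sum fun x _ => ?_
    refine (le_sum_wEdge_update F δ hδ x i).trans ?_
    refine Nat.add_le_add_left (Nat.mul_le_mul_left _ ?_) _
    exact card_image_trc_le F d hd x
  have h2 : m * (M * (δ * #F)) ≤
      2 * (n * ∑ x : Fin m → α, ∑ i, wEdge F x i) + m * (M * (δ * S)) := by
    have := sum_le_sum (s := (univ : Finset (Fin m))) fun i _ => h1 i
    rw [sum_const, card_univ, Fintype.card_fin, smul_eq_mul, sum_add_distrib, sum_const,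
      card_univ, Fintype.card_fin, smul_eq_mul, ← mul_sum, ← mul_sum, sum_comm] at this
    exact this
  have h3 : ∑ x : Fin m → α, ∑ i, wEdge F x i ≤ M * (d * #F) := by
    calc ∑ x : Fin m → α, ∑ i, wEdge F x i ≤ ∑ _x : Fin m → α, d * #F :=
          sum_le_sum fun x _ => sum_wEdge_le F d hd x
      _ = M * (d * #F) := by rw [sum_const, card_univ, smul_eq_mul]
  have h4 : M * (m * (δ * #F)) ≤ M * (2 * (n * (d * #F)) + m * (δ * S)) := by
    calc M * (m * (δ * #F)) = m * (M * (δ * #F)) := by ring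
      _ ≤ 2 * (n * ∑ x : Fin m → α, ∑ i, wEdge F x i) + m * (M * (δ * S)) := h2
      _ ≤ 2 * (n * (M * (d * #F))) + m * (M * (δ * S)) := by
          gcongr
      _ = _ := by ring
  exact Nat.le_of_mul_le_mul_left h4 hMpos

/-- **Haussler's packing lemma**, binomial form. -/
theorem packing' [Nonempty α] (F : Finset (Finset α)) (d δ : ℕ) (hd : F.vcDim ≤ d)
    (hδ : ∀ A ∈ F, ∀ B ∈ F, A ≠ B → δ ≤ #(symmDiff A B)) (hδ0 : 0 < δ) (m : ℕ)
    (hm : 4 * (Fintype.card α * d) ≤ m * δ) (hm0 : 0 < m) :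
    #F ≤ 2 * ∑ k ∈ Iic d, m.choose k := by
  classical
  have h := packing_aux' F d δ hd hδ m
  set S := ∑ k ∈ Iic d, m.choose k with hS
  have h1 : 4 * (Fintype.card α * (d * #F)) ≤ m * (δ * #F) := by
    calc 4 * (Fintype.card α * (d * #F)) = 4 * (Fintype.card α * d) * #F := by ring
      _ ≤ m * δ * #F := Nat.mul_le_mul_right _ hm
      _ = _ := by ring
  have h2 : (m * δ) * #F ≤ (m * δ) * (2 * S) := by
    have e1 : m * δ * #F = m * (δ * #F) := by ring
    have e2 : m * δ * (2 * S) = 2 * (m * (δ * S)) := by ring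
    rw [e1, e2]
    omega
  exact Nat.le_of_mul_le_mul_left h2 (Nat.mul_pos hm0 hδ0)

end Pool.Agent.Helper98.VCU
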